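import Pool.Agent.Helper17.IA.StV

/-!
# Project IA, module PKB: packings and balance
-/

set_option autoImplicit false

namespace Pool.Agent.Helper54.IA

open Finset Pool.Agent.Helper93.IA Pool.Agent.Helper17.IA

private lemma d1_image {ι α β : Type} [DecidableEq α] [DecidableEq β] (P : Finset ι)
    (f : ι → α × β) (hf : ∀ T ∈ P, ∀ T' ∈ P, f T = f T' → T = T') (a : α) :
    d1 (P.image f) a = (P.filter fun T => (f T).1 = a).card := by
  unfold d1
  rw [filter_image]
  refine card_image_of_injOn fun T hT T' hT' h => ?_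
  exact hf T (mem_filter.1 (mem_coe.1 hT)).1 T' (mem_filter.1 (mem_coe.1 hT')).1 h

private lemma d2_image {ι α β : Type} [DecidableEq α] [DecidableEq β] (P : Finset ι)
    (f : ι → α × β) (hf : ∀ T ∈ P, ∀ T' ∈ P, f T = f T' → T = T') (b : β) :
    d2 (P.image f) b = (P.filter fun T => (f T).2 = b).card := by
  unfold d2
  rw [filter_image]
  refine card_image_of_injOn fun T hT T' hT' h => ?_
  exact hf T (mem_filter.1 (mem_coe.1 hT)).1 T' (mem_filter.1 (mem_coe.1 hT')).1 h

private lemma card_filter_sdiff {ι : Type} [DecidableEq ι] (p : ι → Prop) [DecidablePred p]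
    {A X : Finset ι} (h : X ⊆ A) :
    ((A \ X).filter p).card + (X.filter p).card = (A.filter p).card := by
  rw [← card_union_of_disjoint, ← filter_union, sdiff_union_of_subset h]
  exact disjoint_filter_filter sdiff_disjoint

private lemma d1_sdiff {α β : Type} [DecidableEq α] [DecidableEq β] {A X : Finset (α × β)}
    (h : X ⊆ A) (a : α) : d1 (A \ X) a + d1 X a = d1 A a := by
  unfold d1
  exact card_filter_sdiff _ h

private lemma d2_sdiff {α β : Type} [DecidableEq α] [DecidableEq β] {A X : Finset (α × β)}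
    (h : X ⊆ A) (b : β) : d2 (A \ X) b + d2 X b = d2 A b := by
  unfold d2
  exact card_filter_sdiff _ h

private lemma bal_image {α β γ : Type} [DecidableEq α] [DecidableEq β] [DecidableEq γ]
    {A : Finset (α × β)} {B : Finset (β × γ)} {C : Finset (γ × α)} {P : Finset (α × β × γ)}
    (h : Pack A B C P) : Bal (P.image eA) (P.image eB) (P.image eC) := by
  refine ⟨fun a => ?_, fun b => ?_, fun c => ?_⟩
  · rw [d1_image P eA h.iA, d2_image P eC h.iC]
    rfl
  · rw [d1_image P eB h.iB, d2_image P eA h.iA]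
    rfl
  · rw [d1_image P eC h.iC, d2_image P eB h.iB]
    rfl

private lemma bal_sdiff {α β γ : Type} [DecidableEq α] [DecidableEq β] [DecidableEq γ]
    {A XA : Finset (α × β)} {B XB : Finset (β × γ)} {C XC : Finset (γ × α)}
    (hA : XA ⊆ A) (hB : XB ⊆ B) (hC : XC ⊆ C) (h : Bal A B C) (hX : Bal XA XB XC) :
    Bal (A \ XA) (B \ XB) (C \ XC) := by
  obtain ⟨h1, h2, h3⟩ := h
  obtain ⟨x1, x2, x3⟩ := hX
  refine ⟨fun a => ?_, fun b => ?_, fun c => ?_⟩
  · have e1 := d1_sdiff hA a
    have e2 := d2_sdiff hC a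
    have e3 := h1 a
    have e4 := x1 a
    omega
  · have e1 := d1_sdiff hB b
    have e2 := d2_sdiff hA b
    have e3 := h2 b
    have e4 := x2 b
    omega
  · have e1 := d1_sdiff hC c
    have e2 := d2_sdiff hB c
    have e3 := h3 c
    have e4 := x3 c
    omega

/-- PKB. -/
theorem hPKB : StPKB := by
  intro α β γ _ _ _
  refine ⟨fun A B C P hP hbal => ?_, fun A B C hd => ?_, fun A XA B XB C XC hA hB hC h hX =>
    bal_sdiff hA hB hC h hX⟩
  · refine bal_sdiff (fun e he => ?_) (fun e he => ?_) (fun e he => ?_) hbal (bal_image hP)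
    · obtain ⟨T, hT, rfl⟩ := mem_image.1 he
      exact hP.sA T hT
    · obtain ⟨T, hT, rfl⟩ := mem_image.1 he
      exact hP.sB T hT
    · obtain ⟨T, hT, rfl⟩ := mem_image.1 he
      exact hP.sC T hT
  · obtain ⟨P, hP, eA', eB', eC'⟩ := hd
    have h := bal_image hP
    rwa [eA', eB', eC'] at h

end Pool.Agent.Helper54.IA
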